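import Mathlib
import Pool.Agent.H25.DL1

open PowerSeries Finset Filter BinaryTree Pool.Agent.H25.DL1

namespace Pool.Agent.Results.MP_f5c34b_co.Extremal

/-- species trees: binary trees, `nil` being a leaf. -/
abbrev T := BinaryTree Unit

/-- `B(z) = (1 - √(1-4z))/2 = ∑ Catalan(n) z^(n+1)`. -/
noncomputable def B : ℝ⟦X⟧ := X * PowerSeries.mk fun n => (catalan n : ℝ)

/-- generating function of DL-histories. -/
noncomputable def H : T → ℝ⟦X⟧
  | nil => B
  | node _ l r => B.subst (H l * H r + H l + H r)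

/-- number of DL-histories of size `n`. -/
noncomputable def h (S : T) (n : ℕ) : ℝ := coeff n (H S)

/-- caterpillar with `k` leaves (`k ≥ 1`). -/
def CT : ℕ → T
  | 0 => nil
  | 1 => nil
  | k + 2 => node () (CT (k + 1)) nil

/-- at every internal node the leaf counts of the two subtrees differ by at most one. -/
def Balanced : T → Prop
  | nil => True
  | node _ l r => Balanced l ∧ Balanced r ∧
      l.numLeaves ≤ r.numLeaves + 1 ∧ r.numLeaves ≤ l.numLeaves + 1

/-- exponential growth factor: the inverse of the radius of convergence. -/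
noncomputable def alpha (S : T) : ℝ :=
  (sSup {z : ℝ | 0 ≤ z ∧ Summable fun n => h S n * z ^ n})⁻¹

lemma B_eq : B = X + B * B := by
  have := congrArg (PowerSeries.map (Nat.castRingHom ℝ)) catalanSeries_sq_mul_X_add_one
  simp only [map_add, map_mul, map_pow, map_X, map_one] at this
  have e : PowerSeries.map (Nat.castRingHom ℝ) catalanSeries
      = PowerSeries.mk fun n => (catalan n : ℝ) := by
    ext n; simp
  rw [e] at this
  unfold B
  linear_combination (-X) * this

noncomputable def G : T → ℝ⟦X⟧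
  | nil => X
  | node _ l r => H l * H r + H l + H r

lemma subst_eq (a : ℝ⟦X⟧) (ha : constantCoeff a = 0) :
    (B.subst a : ℝ⟦X⟧) = a + B.subst a * B.subst a ∧ constantCoeff (B.subst a : ℝ⟦X⟧) = 0 := by
  have hs := HasSubst.of_constantCoeff_zero' ha
  constructor
  · conv_lhs => rw [B_eq, subst_add hs, subst_mul hs, subst_X hs]
  · exact constantCoeff_subst_eq_zero ha B (by simp [B])

lemma struct (S : T) : H S = G S + H S * H S ∧ coeff 0 (H S) = 0 ∧ NN (G S) ∧
    1 ≤ coeff 1 (H S) := by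
  have fin : ∀ S : T, H S = G S + H S * H S → coeff 0 (H S) = 0 → NN (G S) →
      1 ≤ coeff 1 (G S) → 1 ≤ coeff 1 (H S) := by
    intro S h1 h2 h3 h4
    have hn := NN_of h1 h2 h3
    rw [h1, map_add]
    have := (hn.mul hn) 1
    linarith
  induction S with
  | nil =>
    have h2 : coeff 0 (H nil) = 0 := by simp [H, B]
    exact ⟨B_eq, h2, NN_X, fin nil B_eq h2 NN_X (by simp [G])⟩
  | node u l r ihl ihr =>
    obtain ⟨l1, l2, l3, l4⟩ := ihl
    obtain ⟨r1, r2, r3, r4⟩ := ihr
    have ln := NN_of l1 l2 l3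
    have rn := NN_of r1 r2 r3
    have h0 : constantCoeff (H l * H r + H l + H r) = 0 := by
      rw [coeff_zero_eq_constantCoeff_apply] at l2 r2
      simp [l2, r2]
    obtain ⟨e1, e2⟩ := subst_eq _ h0
    have h2 : coeff 0 (H (node u l r)) = 0 := by
      rw [coeff_zero_eq_constantCoeff_apply]; exact e2
    have h3 : NN (G (node u l r)) := ((ln.mul rn).add ln).add rn
    refine ⟨e1, h2, h3, fin _ e1 h2 h3 ?_⟩
    simp only [G, map_add]
    have := (ln.mul rn) 1
    linarith

lemma H_NN (S : T) : NN (H S) := NN_of (struct S).1 (struct S).2.1 (struct S).2.2.1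

noncomputable def arg (z : ℝ) : T → ℝ
  | nil => z
  | node _ l r => Bf (arg z l) * Bf (arg z r) + Bf (arg z l) + Bf (arg z r)

lemma arg_node (z : ℝ) (u : Unit) (l r : T) :
    1 + arg z (node u l r) = (1 + Bf (arg z l)) * (1 + Bf (arg z r)) := by
  simp only [arg]; ring

lemma arg_nonneg {z : ℝ} (hz : 0 ≤ z) (S : T) : 0 ≤ arg z S := by
  induction S with
  | nil => exact hz
  | node u l r ihl ihr =>
    have := Bf_nonneg ihl
    have := Bf_nonneg ihr
    simp only [arg]; positivity

lemma arg_cont (S : T) : Continuous fun z => arg z S := by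
  induction S with
  | nil => exact continuous_id
  | node u l r ihl ihr =>
    have h1 := Bf_cont.comp ihl
    have h2 := Bf_cont.comp ihr
    exact ((h1.mul h2).add h1).add h2

lemma arg_zero (S : T) : arg 0 S = 0 := by
  induction S with
  | nil => rfl
  | node u l r ihl ihr => simp [arg, ihl, ihr, Bf]

lemma desc {z : ℝ} (hz : 0 ≤ z) {u : Unit} {l r : T} (h : arg z (node u l r) ≤ 1 / 4) :
    arg z l ≤ 1 / 4 ∧ arg z r ≤ 1 / 4 := by
  have h1 := Bf_nonneg (arg_nonneg hz l)
  have h2 := Bf_nonneg (arg_nonneg hz r)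
  have h3 := mul_nonneg h1 h2
  simp only [arg] at h
  constructor <;> by_contra hc <;> push Not at hc <;> have := Bf_big hc <;> linarith

lemma le_Bf {x : ℝ} (hx : x ≤ 1 / 4) : x ≤ Bf x := by
  have := Bf_eq hx; nlinarith [sq_nonneg (Bf x)]

lemma leaves_le {z : ℝ} (hz : 0 ≤ z) (S : T) (h : arg z S ≤ 1 / 4) :
    S.numLeaves * z ≤ arg z S := by
  induction S with
  | nil => simp [arg]
  | node u l r ihl ihr =>
    obtain ⟨a, b⟩ := desc hz h
    have h1 := (ihl a).trans (le_Bf a)
    have h2 := (ihr b).trans (le_Bf b)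
    have h3 := mul_nonneg (Bf_nonneg (arg_nonneg hz l)) (Bf_nonneg (arg_nonneg hz r))
    simp only [arg, numLeaves]
    push_cast
    linarith

lemma z_le {z : ℝ} (hz : 0 ≤ z) (S : T) (h : arg z S ≤ 1 / 4) : z ≤ arg z S := by
  have h1 := leaves_le hz S h
  have h2 : (1 : ℝ) ≤ S.numLeaves := by exact_mod_cast S.numLeaves_pos
  nlinarith

lemma upT {z : ℝ} (hz : 0 ≤ z) (S : T) (h : arg z S ≤ 1 / 4) :
    Sm (H S) z ∧ ev (H S) z ≤ Bf (arg z S) := by
  induction S with
  | nil => exact up (struct nil).1 (struct nil).2.1 NN_X hz (Sm_X z).1 (Sm_X z).2.le h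
  | node u l r ihl ihr =>
    obtain ⟨a, b⟩ := desc hz h
    obtain ⟨l1, l2⟩ := ihl a
    obtain ⟨r1, r2⟩ := ihr b
    have m := l1.mul r1
    have a1 := m.1.add l1
    have a2 := a1.1.add r1
    refine up (struct _).1 (struct _).2.1 (struct _).2.2.1 hz a2.1 ?_ h
    simp only [G, arg]
    rw [a2.2, a1.2, m.2]
    have := mul_le_mul l2 r2 (ev_nonneg (H_NN r) hz) (Bf_nonneg (arg_nonneg hz l))
    linarith

lemma downT {z : ℝ} (hz : 0 ≤ z) (S : T) (h : Sm (H S) z) :
    arg z S ≤ 1 / 4 ∧ Bf (arg z S) ≤ ev (H S) z := by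
  have fin : ∀ S : T, Sm (H S) z → arg z S ≤ ev (G S) z →
      arg z S ≤ 1 / 4 ∧ Bf (arg z S) ≤ ev (H S) z := by
    intro S h1 h2
    have := (down (struct S).1 (struct S).2.1 (struct S).2.2.1 hz h1).2
    exact ⟨by nlinarith [sq_nonneg (ev (H S) z - 1 / 2)], Bf_le_root h2 this⟩
  induction S with
  | nil => exact fin nil h (Sm_X z).2.ge
  | node u l r ihl ihr =>
    have hG := (down (struct _).1 (struct _).2.1 (struct _).2.2.1 hz h).1
    simp only [G] at hG
    have ln := H_NN l
    have rn := H_NN r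
    have r1 : Sm (H r) z := Sm.of_add hz rn ((ln.mul rn).add ln) (by rwa [add_comm])
    have l1 : Sm (H l) z := Sm.of_add hz ln ((ln.mul rn).add rn) (by
      have : H l + (H l * H r + H r) = H l * H r + H l + H r := by ring
      rwa [this])
    have l2 := (ihl l1).2
    have r2 := (ihr r1).2
    have m := l1.mul r1
    have a1 := m.1.add l1
    have a2 := a1.1.add r1
    refine fin _ h ?_
    simp only [G, arg]
    rw [a2.2, a1.2, m.2]
    have := mul_le_mul l2 r2 (Bf_nonneg (arg_nonneg hz r)) (ev_nonneg ln hz)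
    linarith

lemma exists_crit (S : T) : ∃ z, 0 < z ∧ arg z S = 1 / 4 := by
  have h1 : (1 / 4 : ℝ) ≤ arg (1 / 4) S := by
    by_contra hc
    push Not at hc
    have := z_le (by norm_num) S hc.le
    linarith
  obtain ⟨z, hz, e⟩ := intermediate_value_Icc (show (0 : ℝ) ≤ 1 / 4 by norm_num)
    (arg_cont S).continuousOn (show (1 / 4 : ℝ) ∈ Set.Icc _ _ from
      ⟨by simp only [arg_zero]; norm_num, h1⟩)
  refine ⟨z, lt_of_le_of_ne hz.1 ?_, e⟩
  rintro rfl
  simp only [arg_zero] at e
  norm_num at e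

lemma compare (S S' : T) {z : ℝ} (hz : 0 < z) (h1 : arg z S ≤ 1 / 4) (h2 : 1 / 4 < arg z S') :
    ∀ᶠ n in atTop, h S n ≤ h S' n := by
  have e1 : ∀ᶠ y in nhds z, 1 / 4 < arg y S' :=
    (arg_cont S').continuousAt.eventually (lt_mem_nhds h2)
  have e2 : ∀ᶠ y in nhds z, 0 < y := lt_mem_nhds hz
  obtain ⟨y, hy, hy1, hy2⟩ := (e1.and e2).exists_lt
  obtain ⟨N, hN⟩ := dominate (struct S').1 (struct S').2.1 (struct S').2.2.1 (struct S').2.2.2
    hy2 hy (fun hs => by have := (downT hy2.le S' hs).1; linarith) (upT hz.le S h1).1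
  exact eventually_atTop.2 ⟨N, hN⟩

/-- same series and same value -/
def Same (z : ℝ) (S S' : T) : Prop := H S = H S' ∧ arg z S = arg z S'

lemma Same.node {z : ℝ} {l r l' r' : T} (u u' : Unit) (h1 : Same z l l') (h2 : Same z r r') :
    Same z (node u l r) (node u' l' r') := by
  simp only [Same, H, arg] at *
  rw [h1.1, h1.2, h2.1, h2.2]
  exact ⟨rfl, rfl⟩

lemma Same.swap (z : ℝ) (l r : T) (u u' : Unit) : Same z (.node u l r) (.node u' r l) := by
  simp only [Same, H, arg]
  constructor
  · congr 1; ring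
  · ring

lemma Same.trans {z : ℝ} {a b c : T} (h1 : Same z a b) (h2 : Same z b c) : Same z a c :=
  ⟨h1.1.trans h2.1, h1.2.trans h2.2⟩

lemma mono_node {z : ℝ} (hz : 0 ≤ z) {l r l' r' : T} (u u' : Unit)
    (hl : arg z l < 1 / 4) (hr : arg z r < 1 / 4)
    (h1 : Same z l l' ∨ arg z l < arg z l') (h2 : Same z r r' ∨ arg z r < arg z r') :
    Same z (.node u l r) (.node u' l' r') ∨ arg z (.node u l r) < arg z (.node u' l' r') := by
  have a1 := Bf_nonneg (arg_nonneg hz l)
  have a2 := Bf_nonneg (arg_nonneg hz r)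
  rcases h1 with h1 | h1 <;> rcases h2 with h2 | h2
  · exact Or.inl (h1.node u u' h2)
  · right
    have := Bf_lt h2 hr
    simp only [arg, ← h1.2]
    nlinarith
  · right
    have := Bf_lt h1 hl
    simp only [arg, ← h2.2]
    nlinarith
  · right
    have := Bf_lt h1 hl
    have := Bf_lt h2 hr
    simp only [arg]
    nlinarith

lemma uniq (z : ℝ) (S : T) : ∀ S' : T, Balanced S → Balanced S' → S.numLeaves = S'.numLeaves →
    Same z S S' := by
  induction S with
  | nil =>
    intro S' _ _ h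
    cases S' with
    | nil => exact ⟨rfl, rfl⟩
    | node u l r =>
      have := l.numLeaves_pos
      have := r.numLeaves_pos
      simp only [numLeaves] at h
      omega
  | node u l r ihl ihr =>
    intro S' h1 h2 h
    cases S' with
    | nil =>
      have := l.numLeaves_pos
      have := r.numLeaves_pos
      simp only [numLeaves] at h
      omega
    | node u' l' r' =>
      simp only [numLeaves, Balanced] at h h1 h2
      by_cases e : l.numLeaves = l'.numLeaves
      · exact (ihl l' h1.1 h2.1 e).node u u' (ihr r' h1.2.1 h2.2.1 (by omega))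
      · exact ((ihl r' h1.1 h2.2.1 (by omega)).node u u (ihr l' h1.2.1 h2.1 (by omega))).trans
          (Same.swap z r' l' u u')

lemma exists_bal (k : ℕ) : ∃ S : T, Balanced S ∧ (1 ≤ k → S.numLeaves = k) := by
  induction k using Nat.strong_induction_on with
  | _ k ih =>
    by_cases hk : k ≤ 1
    · exact ⟨nil, trivial, fun h => by simp only [numLeaves]; omega⟩
    · obtain ⟨l, l1, l2⟩ := ih (k / 2) (by omega)
      obtain ⟨r, r1, r2⟩ := ih ((k + 1) / 2) (by omega)
      have := l2 (by omega)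
      have := r2 (by omega)
      exact ⟨node () l r, ⟨l1, r1, by omega, by omega⟩, fun _ => by simp only [numLeaves]; omega⟩

noncomputable def bt (k : ℕ) : T := (exists_bal k).choose

lemma bt_bal (k : ℕ) : Balanced (bt k) := (exists_bal k).choose_spec.1

lemma bt_leaves {k : ℕ} (hk : 1 ≤ k) : (bt k).numLeaves = k := (exists_bal k).choose_spec.2 hk

lemma bt_node (z : ℝ) {a b : ℕ} (ha : 1 ≤ a) (hb : 1 ≤ b) (h1 : a ≤ b + 1) (h2 : b ≤ a + 1) :
    Same z (bt (a + b)) (node () (bt a) (bt b)) :=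
  uniq z _ _ (bt_bal _) ⟨bt_bal a, bt_bal b, by rw [bt_leaves ha, bt_leaves hb]; exact h1,
    by rw [bt_leaves ha, bt_leaves hb]; exact h2⟩
    (by simp only [numLeaves]; rw [bt_leaves ha, bt_leaves hb, bt_leaves (by omega)])

lemma balmin {z : ℝ} (hz : 0 < z) {K : ℕ} (hK : arg z (bt K) ≤ 1 / 4) (S : T) :
    S.numLeaves ≤ K → Same z (bt S.numLeaves) S ∨ arg z (bt S.numLeaves) < arg z S := by
  obtain ⟨W, hW⟩ : ∃ W : ℕ → ℝ, ∀ j, W j = 1 + Bf (arg z (bt j)) := ⟨_, fun _ => rfl⟩
  have pos : ∀ j, 0 < W j := fun j => by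
    have := Bf_nonneg (arg_nonneg hz.le (bt j)); rw [hW]; linarith
  have hz4 : z ≤ 1 / 4 := (z_le hz.le _ hK).trans hK
  have r1 : arg z (bt 1) = z := (uniq z _ nil (bt_bal 1) trivial (bt_leaves le_rfl)).2
  have rc : ∀ a b j, 1 ≤ a → 1 ≤ b → a ≤ b + 1 → b ≤ a + 1 → j = a + b →
      1 + arg z (bt j) = W a * W b := by
    intro a b j ha hb h1 h2 hj
    rw [hj, (bt_node z ha hb h1 h2).2, arg_node, hW, hW]
  have w1 : 1 + z ≤ W 1 := by rw [hW, r1]; have := le_Bf hz4; linarith
  have base : arg z (bt 1) < arg z (bt 2) := by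
    have := rc 1 1 2 le_rfl le_rfl (by omega) (by omega) rfl
    rw [r1]; nlinarith
  have wk : ∀ j, 1 ≤ j → arg z (bt j) ≤ arg z (bt (j + 1)) := by
    intro j
    induction j using Nat.strong_induction_on with
    | _ j ih =>
      intro hj
      by_cases h1 : j = 1
      · rw [h1]; exact base.le
      have e1 := rc (j / 2) ((j + 1) / 2) j (by omega) (by omega) (by omega) (by omega) (by omega)
      have e2 := rc (j / 2 + 1) ((j + 1) / 2) (j + 1) (by omega) (by omega) (by omega) (by omega)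
        (by omega)
      have h3 : W (j / 2) ≤ W (j / 2 + 1) := by
        have := Bf_mono (ih (j / 2) (by omega) (by omega))
        rw [hW, hW]; linarith
      have := mul_le_mul_of_nonneg_right h3 (pos ((j + 1) / 2)).le
      linarith
  have ok : ∀ j, 1 ≤ j → j ≤ K → arg z (bt j) ≤ 1 / 4 := by
    intro j hj hjK
    induction hjK using Nat.decreasingInduction with
    | self => exact hK
    | of_succ i _ ih => exact (wk i hj).trans (ih (by omega))
  have st : ∀ j, 1 ≤ j → j + 1 ≤ K → arg z (bt j) < arg z (bt (j + 1)) := by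
    intro j
    induction j using Nat.strong_induction_on with
    | _ j ih =>
      intro hj hjK
      by_cases h1 : j = 1
      · rw [h1]; exact base
      have e1 := rc (j / 2) ((j + 1) / 2) j (by omega) (by omega) (by omega) (by omega) (by omega)
      have e2 := rc (j / 2 + 1) ((j + 1) / 2) (j + 1) (by omega) (by omega) (by omega) (by omega)
        (by omega)
      have h3 : W (j / 2) < W (j / 2 + 1) := by
        have a := ih (j / 2) (by omega) (by omega) (by omega)
        have := Bf_lt a (a.trans_le (ok _ (by omega) (by omega)))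
        rw [hW, hW]; linarith
      have := mul_lt_mul_of_pos_right h3 (pos ((j + 1) / 2))
      linarith
  have cv : ∀ j, 1 ≤ j → j + 2 ≤ K → W (j + 1) ^ 2 < W j * W (j + 2) := by
    intro j
    induction j using Nat.strong_induction_on with
    | _ j ih =>
      intro hj hjK
      by_cases h1 : j = 1
      · subst h1
        have e1 := rc 1 1 2 le_rfl le_rfl (by omega) (by omega) rfl
        have e2 := rc 1 2 3 le_rfl (by omega) (by omega) (by omega) rfl
        have := C1 (x := arg z (bt 2)) (y := arg z (bt 3)) (by rw [r1] at base; linarith)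
          (st 2 (by omega) hjK) (ok 3 (by omega) hjK)
        rw [e1, e2, ← hW, ← hW] at this
        have h5 : W 1 * W 2 ^ 2 < W 1 * (W 1 * W 3) := by nlinarith
        exact lt_of_mul_lt_mul_left h5 (pos 1).le
      rw [hW, hW, hW]
      refine C2 (arg_nonneg hz.le _) ((st j hj (by omega)).trans (st (j + 1) (by omega) hjK))
        (ok _ (by omega) hjK) (arg_nonneg hz.le _) (ok _ (by omega) (by omega)) ?_
      rcases Nat.even_or_odd' j with ⟨i, rfl | rfl⟩
      · rw [rc i i (2 * i) (by omega) (by omega) (by omega) (by omega) (by omega),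
          rc i (i + 1) (2 * i + 1) (by omega) (by omega) (by omega) (by omega) (by omega),
          rc (i + 1) (i + 1) (2 * i + 2) (by omega) (by omega) (by omega) (by omega) (by omega)]
        exact le_of_eq (by ring)
      · rw [rc i (i + 1) (2 * i + 1) (by omega) (by omega) (by omega) (by omega) (by omega),
          rc (i + 1) (i + 1) (2 * i + 1 + 1) (by omega) (by omega) (by omega) (by omega)
            (by omega),
          rc (i + 1) (i + 2) (2 * i + 1 + 2) (by omega) (by omega) (by omega) (by omega)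
            (by omega)]
        have := mul_lt_mul_of_pos_right (ih i (by omega) (by omega) (by omega))
          (pow_pos (pos (i + 1)) 2)
        nlinarith
  have unb : ∀ a b, 1 ≤ a → a + 2 ≤ b → a + b ≤ K → 1 + arg z (bt (a + b)) < W a * W b := by
    intro a b ha hab hK'
    rw [rc ((a + b) / 2) ((a + b + 1) / 2) (a + b) (by omega) (by omega) (by omega) (by omega)
      (by omega)]
    have := spread W K pos cv ((a + b) / 2 - a - 1) a ((a + b + 1) / 2) ha (by omega) (by omega)
    rwa [show a + ((a + b) / 2 - a - 1) + 1 = (a + b) / 2 by omega,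
      show (a + b + 1) / 2 + ((a + b) / 2 - a - 1) + 1 = b by omega] at this
  induction S with
  | nil => intro _; exact Or.inl (uniq z _ nil (bt_bal 1) trivial (bt_leaves le_rfl))
  | node u l r ihl ihr =>
    intro hS
    simp only [numLeaves] at hS ⊢
    have ha := l.numLeaves_pos
    have hb := r.numLeaves_pos
    have c1 := mono_node hz.le () u
      ((st _ ha (by omega)).trans_le (ok _ (by omega) (by omega)))
      ((st _ hb (by omega)).trans_le (ok _ (by omega) (by omega)))
      (ihl (by omega)) (ihr (by omega))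
    have c2 : Same z (bt (l.numLeaves + r.numLeaves))
        (node () (bt l.numLeaves) (bt r.numLeaves)) ∨ arg z (bt (l.numLeaves + r.numLeaves))
          < arg z (node () (bt l.numLeaves) (bt r.numLeaves)) := by
      have e := arg_node z () (bt l.numLeaves) (bt r.numLeaves)
      rw [← hW, ← hW] at e
      by_cases h1 : l.numLeaves + 2 ≤ r.numLeaves
      · have := unb _ _ ha h1 hS
        right; linarith
      by_cases h2 : r.numLeaves + 2 ≤ l.numLeaves
      · have := unb _ _ hb h2 (by omega)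
        rw [add_comm r.numLeaves] at this
        right; linarith
      exact Or.inl (bt_node z ha hb (by omega) (by omega))
    rcases c1 with c1 | c1 <;> rcases c2 with c2 | c2
    · exact Or.inl (c2.trans c1)
    · exact Or.inr (c1.2 ▸ c2)
    · exact Or.inr (c2.2 ▸ c1)
    · exact Or.inr (c2.trans c1)

lemma CT_succ {j : ℕ} (hj : 1 ≤ j) : CT (j + 1) = node () (CT j) nil := by
  obtain ⟨i, rfl⟩ : ∃ i, j = i + 1 := ⟨j - 1, by omega⟩
  rfl

lemma CT_leaves {k : ℕ} (hk : 1 ≤ k) : (CT k).numLeaves = k := by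
  induction k, hk using Nat.le_induction with
  | base => rfl
  | succ j hj ih => rw [CT_succ hj]; simp only [numLeaves, ih]

lemma CT_ok {z : ℝ} (hz : 0 ≤ z) {K : ℕ} (hK : arg z (CT K) ≤ 1 / 4) :
    ∀ j, 1 ≤ j → j ≤ K → arg z (CT j) ≤ 1 / 4 := by
  intro j hj hjK
  induction hjK using Nat.decreasingInduction with
  | self => exact hK
  | of_succ i _ ih =>
    have := ih (by omega)
    rw [CT_succ hj] at this
    exact (desc hz this).1

lemma catmax {z : ℝ} (hz : 0 < z) {K : ℕ} (hK : arg z (CT K) ≤ 1 / 4) (S : T) :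
    S.numLeaves ≤ K → Same z S (CT S.numLeaves) ∨ arg z S < arg z (CT S.numLeaves) := by
  obtain ⟨W, hW⟩ : ∃ W : ℕ → ℝ, ∀ j, W j = 1 + Bf (arg z (CT j)) := ⟨_, fun _ => rfl⟩
  have pos : ∀ j, 0 < W j := fun j => by
    have := Bf_nonneg (arg_nonneg hz.le (CT j)); rw [hW]; linarith
  have hz4 : z ≤ 1 / 4 := (z_le hz.le _ hK).trans hK
  have rc : ∀ j, 1 ≤ j → 1 + arg z (CT (j + 1)) = W j * W 1 := by
    intro j hj
    rw [CT_succ hj, arg_node, hW, hW]; rfl
  have w1 : 1 + z ≤ W 1 := by
    have : arg z (CT 1) = z := rfl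
    rw [hW, this]; have := le_Bf hz4; linarith
  have ok := CT_ok hz.le hK
  have st : ∀ j, 1 ≤ j → j + 1 ≤ K → arg z (CT j) < arg z (CT (j + 1)) := by
    intro j hj hjK
    have e := rc j hj
    have h1 := le_Bf (ok j hj (by omega))
    have h2 := hW j
    have h3 := pos j
    nlinarith
  have cv : ∀ j, 1 ≤ j → j + 2 ≤ K → W (j + 1) ^ 2 < W j * W (j + 2) := by
    intro j hj hjK
    have := C1 (x := arg z (CT (j + 1))) (y := arg z (CT (j + 1 + 1)))
      (hz.trans_le (z_le hz.le _ (ok _ (by omega) (by omega))))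
      (st (j + 1) (by omega) hjK) (ok _ (by omega) hjK)
    rw [rc j hj, rc (j + 1) (by omega), ← hW, ← hW] at this
    have h5 : W 1 * W (j + 1) ^ 2 < W 1 * (W j * W (j + 2)) := by nlinarith
    exact lt_of_mul_lt_mul_left h5 (pos 1).le
  have unb : ∀ a b, 2 ≤ a → a ≤ b → a + b ≤ K → W a * W b < 1 + arg z (CT (a + b)) := by
    intro a b ha hab hK'
    have e := rc (a + b - 1) (by omega)
    rw [show a + b - 1 + 1 = a + b by omega] at e
    have := spread W K pos cv (a - 2) 1 b le_rfl (by omega) (by omega)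
    rw [show 1 + (a - 2) + 1 = a by omega, show b + (a - 2) + 1 = a + b - 1 by omega] at this
    linarith
  induction S with
  | nil => intro _; exact Or.inl ⟨rfl, rfl⟩
  | node u l r ihl ihr =>
    intro hS
    simp only [numLeaves] at hS ⊢
    have ha := l.numLeaves_pos
    have hb := r.numLeaves_pos
    have il := ihl (by omega)
    have ir := ihr (by omega)
    have sl := (st _ ha (by omega)).trans_le (ok _ (by omega) (by omega))
    have sr := (st _ hb (by omega)).trans_le (ok _ (by omega) (by omega))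
    have c1 := mono_node hz.le u () (il.elim (fun h => h.2 ▸ sl) fun h => h.trans sl)
      (ir.elim (fun h => h.2 ▸ sr) fun h => h.trans sr) il ir
    have c2 : Same z (node () (CT l.numLeaves) (CT r.numLeaves)) (CT (l.numLeaves + r.numLeaves))
        ∨ arg z (node () (CT l.numLeaves) (CT r.numLeaves))
          < arg z (CT (l.numLeaves + r.numLeaves)) := by
      have e := arg_node z () (CT l.numLeaves) (CT r.numLeaves)
      rw [← hW, ← hW] at e
      by_cases h1 : r.numLeaves = 1
      · rw [h1, CT_succ ha]; exact Or.inl ⟨rfl, rfl⟩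
      by_cases h2 : l.numLeaves = 1
      · rw [h2, add_comm, CT_succ hb]; exact Or.inl (Same.swap z _ _ _ _)
      right
      rcases le_total l.numLeaves r.numLeaves with h3 | h3
      · have := unb _ _ (by omega) h3 hS
        linarith
      · have := unb _ _ (by omega) h3 (by omega)
        rw [add_comm r.numLeaves] at this
        linarith
    rcases c1 with c1 | c1 <;> rcases c2 with c2 | c2
    · exact Or.inl (c1.trans c2)
    · exact Or.inr (c1.2 ▸ c2)
    · exact Or.inr (c2.2 ▸ c1)
    · exact Or.inr (c1.trans c2)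

lemma ev_bal (S : T) : ∀ᶠ n in atTop, h (bt S.numLeaves) n ≤ h S n := by
  obtain ⟨z, hz, e⟩ := exists_crit (bt S.numLeaves)
  rcases balmin hz e.le S le_rfl with h1 | h1
  · exact Eventually.of_forall fun n => by unfold h; rw [h1.1]
  · exact compare _ _ hz e.le (e ▸ h1)

lemma ev_cat (S : T) : ∀ᶠ n in atTop, h S n ≤ h (CT S.numLeaves) n := by
  obtain ⟨z, hz, e⟩ := exists_crit S
  rcases le_or_gt (arg z (CT S.numLeaves)) (1 / 4) with h0 | h0
  · rcases catmax hz h0 S le_rfl with h1 | h1
    · exact Eventually.of_forall fun n => by unfold h; rw [h1.1]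
    · linarith
  · exact compare _ _ hz e.le h0

lemma alpha_ge (S : T) {c : ℝ} (hc : 0 < c) (hb : ∀ z, 0 ≤ z → arg z S ≤ 1 / 4 → c * z ≤ 1) :
    c ≤ alpha S := by
  obtain ⟨z, hz, e⟩ := exists_crit S
  have hub : ∀ y ∈ {z : ℝ | 0 ≤ z ∧ Summable fun n => h S n * z ^ n}, y ≤ c⁻¹ := fun y hy => by
    have := hb y hy.1 (downT hy.1 S hy.2).1
    rw [← one_div, le_div_iff₀ hc]; linarith
  have hm : z ∈ {z : ℝ | 0 ≤ z ∧ Summable fun n => h S n * z ^ n} := ⟨hz.le, (upT hz.le S e.le).1⟩
  have h1 := le_csSup ⟨_, hub⟩ hm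
  have h2 := csSup_le ⟨z, hm⟩ hub
  unfold alpha
  exact (le_inv_comm₀ hc (hz.trans_le h1)).2 h2

lemma alpha_le (S : T) {c : ℝ} (hc : 0 < c) (hb : arg c⁻¹ S ≤ 1 / 4) : alpha S ≤ c := by
  have hub : ∀ y ∈ {z : ℝ | 0 ≤ z ∧ Summable fun n => h S n * z ^ n}, y ≤ 1 / 4 := fun y hy =>
    (z_le hy.1 S (downT hy.1 S hy.2).1).trans (downT hy.1 S hy.2).1
  have hi := inv_pos.2 hc
  have hm : c⁻¹ ∈ {z : ℝ | 0 ≤ z ∧ Summable fun n => h S n * z ^ n} :=
    ⟨hi.le, (upT hi.le S hb).1⟩
  have h1 := le_csSup ⟨_, hub⟩ hm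
  unfold alpha
  exact inv_le_of_inv_le₀ hc h1

lemma Bf_up {x : ℝ} (h0 : 0 ≤ x) (hx : x ≤ 1 / 4) : Bf x ≤ x + 4 * x ^ 2 := by
  have h1 := Bf_eq hx
  have h2 := Bf_le x
  have h3 := Bf_nonneg h0
  have h4 : Bf x ≤ 2 * x := by nlinarith
  nlinarith

lemma bal_bound {z : ℝ} (hz : 0 ≤ z) (S : T) : Balanced S → 84 * (S.numLeaves * z) ≤ 1 →
    arg z S ≤ 1 / 4 ∧ Bf (arg z S) ≤ S.numLeaves * z + 84 * (S.numLeaves * z) ^ 2 := by
  induction S with
  | nil =>
    intro _ h
    simp only [numLeaves, Nat.cast_one, one_mul, arg] at h ⊢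
    have := Bf_up hz (by linarith)
    exact ⟨by linarith, by nlinarith⟩
  | node u l r ihl ihr =>
    intro hb h
    simp only [numLeaves, Balanced] at hb h ⊢
    push_cast at h ⊢
    have ha := l.numLeaves_pos
    have hb' := r.numLeaves_pos
    have c1 : (r.numLeaves : ℝ) ≤ 2 * l.numLeaves := by exact_mod_cast (by omega)
    have c2 : (l.numLeaves : ℝ) ≤ 2 * r.numLeaves := by exact_mod_cast (by omega)
    have d1 := mul_le_mul_of_nonneg_right c1 hz
    have d2 := mul_le_mul_of_nonneg_right c2 hz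
    have p1 : 0 ≤ (l.numLeaves : ℝ) * z := by positivity
    have p2 : 0 ≤ (r.numLeaves : ℝ) * z := by positivity
    rw [add_mul] at h ⊢
    rw [mul_assoc] at d1 d2
    have l2 := (ihl hb.1 (by linarith)).2
    have r2 := (ihr hb.2.1 (by linarith)).2
    have l0 := Bf_nonneg (arg_nonneg hz l)
    have r0 := Bf_nonneg (arg_nonneg hz r)
    have x0 := arg_nonneg hz (node u l r)
    have ex : arg z (node u l r) = Bf (arg z l) * Bf (arg z r) + Bf (arg z l) + Bf (arg z r) := rfl
    generalize (l.numLeaves : ℝ) * z = a at *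
    generalize (r.numLeaves : ℝ) * z = b at *
    generalize arg z (node u l r) = x at *
    generalize Bf (arg z l) = p at *
    generalize Bf (arg z r) = q at *
    have e1 : p ≤ 2 * a := by nlinarith
    have e2 : q ≤ 2 * b := by nlinarith
    have e3 : p * q ≤ (a + b) ^ 2 := by
      have := mul_le_mul e1 e2 r0 (by linarith)
      nlinarith [sq_nonneg (a - b)]
    have e4 : 9 * (a ^ 2 + b ^ 2) ≤ 5 * (a + b) ^ 2 := by
      have := mul_nonneg (sub_nonneg.2 d1) (sub_nonneg.2 d2)
      nlinarith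
    have e5 : (a + b) ^ 2 ≤ a + b := by nlinarith
    have e6 : x ≤ 3 * (a + b) := by linarith
    have e7 : x ≤ 1 / 4 := by linarith
    have e8 := Bf_up x0 e7
    have e9 : x ^ 2 ≤ (3 * (a + b)) ^ 2 := pow_le_pow_left₀ x0 e6 2
    exact ⟨e7, by nlinarith⟩

lemma cat_bound {z : ℝ} (hz : 0 ≤ z) {K : ℕ} (hK : arg z (CT K) ≤ 1 / 4) :
    ∀ j, 1 ≤ j → j ≤ K → ((j : ℝ) - 1) ^ 3 * z ^ 2 ≤ 3 * arg z (CT j) := by
  intro j hj
  induction j, hj using Nat.le_induction with
  | base => intro _; have := arg_nonneg hz (CT 1); simp; linarith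
  | succ j hj ih =>
    intro hjK
    have h1 := ih (by omega)
    have ok := CT_ok hz hK j hj (by omega)
    have h2 := leaves_le hz _ ok
    rw [CT_leaves hj] at h2
    have h3 := Bf_eq ok
    have h4 := le_Bf ok
    have h5 : ((j : ℝ) * z) ^ 2 ≤ Bf (arg z (CT j)) ^ 2 :=
      pow_le_pow_left₀ (by positivity) (h2.trans h4) 2
    have h6 := Bf_nonneg hz
    have h7 := mul_nonneg (Bf_nonneg (arg_nonneg hz (CT j))) h6
    have h8 : (1 : ℝ) ≤ j := by exact_mod_cast hj
    have h9 : 0 ≤ (3 * (j : ℝ) - 1) * z ^ 2 := mul_nonneg (by linarith) (sq_nonneg z)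
    rw [CT_succ hj]
    simp only [arg]
    push_cast
    nlinarith

theorem result :
    (∀ k, 1 ≤ k → (CT k).numLeaves = k ∧ ∃ S : T, Balanced S ∧ S.numLeaves = k) ∧
    (∀ k, 1 ≤ k → ∃ N, ∀ n ≥ N, ∀ S Bt : T, S.numLeaves = k → Bt.numLeaves = k → Balanced Bt →
      h Bt n ≤ h S n ∧ h S n ≤ h (CT k) n) ∧
    Tendsto (fun k : ℕ => alpha (CT k) / k) atTop atTop ∧
    ∀ Bt : T, Balanced Bt → 4 * Bt.numLeaves ≤ alpha Bt ∧ alpha Bt ≤ 84 * Bt.numLeaves := by
  refine ⟨fun k hk => ⟨CT_leaves hk, bt k, bt_bal k, bt_leaves hk⟩, fun k hk => ?_, ?_,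
    fun Bt hB => ?_⟩
  · have := (eventually_all_finset (treesOfNumNodesEq (k - 1))).2
      fun S _ => (ev_bal S).and (ev_cat S)
    obtain ⟨N, hN⟩ := eventually_atTop.1 this
    refine ⟨N, fun n hn S Bt h1 h2 h3 => ?_⟩
    have := hN n hn S (by
      rw [mem_treesOfNumNodesEq]
      have := S.numLeaves_eq_numNodes_succ
      omega)
    rw [h1] at this
    have e : H Bt = H (bt k) := (uniq 0 _ _ h3 (bt_bal k) (by rw [h2, bt_leaves hk])).1
    unfold h at this ⊢
    rw [e]
    exact this
  · refine tendsto_atTop.2 fun M => ?_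
    filter_upwards [eventually_ge_atTop 2,
      tendsto_natCast_atTop_atTop.eventually_ge_atTop (6 * (|M| + 1) ^ 2)] with k hk hk2
    have k2 : (2 : ℝ) ≤ k := by exact_mod_cast hk
    have hM : 0 < |M| + 1 := by positivity
    rw [le_div_iff₀ (by linarith)]
    refine le_trans (mul_le_mul_of_nonneg_right
      ((le_abs_self M).trans (le_add_of_nonneg_right zero_le_one)) (by linarith))
      (alpha_ge _ (by positivity) fun z hz hz4 => ?_)
    have h1 := cat_bound hz hz4 k (by omega) le_rfl
    have h2 : ((k : ℝ) / 2) ^ 3 ≤ ((k : ℝ) - 1) ^ 3 :=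
      pow_le_pow_left₀ (by linarith) (by linarith) 3
    have h3 := mul_le_mul_of_nonneg_right h2 (sq_nonneg z)
    have h4 := mul_le_mul_of_nonneg_right hk2 (sq_nonneg (k * z))
    have h5 : ((|M| + 1) * k * z) ^ 2 ≤ 1 := by nlinarith
    exact (sq_le_one_iff₀ (by positivity)).1 h5
  · have hk : (0 : ℝ) < Bt.numLeaves := by exact_mod_cast Bt.numLeaves_pos
    refine ⟨alpha_ge _ (by positivity) fun z hz h4 => ?_, alpha_le _ (by positivity) ?_⟩
    · have := leaves_le hz Bt h4
      linarith
    · refine (bal_bound (by positivity) Bt hB (le_of_eq ?_)).1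
      field_simp

end Pool.Agent.Results.MP_f5c34b_co.Extremal
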